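import Pool.Agent.W388.TW.PerChiE
import Pool.Agent.T2H62.MQ.A2

/-!
# The trace inequality with two levels for L-functions without a pointwise bound of the coefficients

The same as `Pool.Agent.T2H62.MQ.A2`, `A3` with `W388.GoodE` in place of `H385.GoodD`.
-/

open Complex Filter Topology Set MeasureTheory
open scoped BigOperators ComplexConjugate
open H370 (zset mult NN Nd Ns)

set_option maxHeartbeats 4000000

namespace W388.T2H62

open H385
open H385.PerChi (zz_spec zz_refl zz_inj zz_re zz_im phiw_even phiw_zero Rw_cont aw aw_zz log_bd)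
open W388.PerChiD (zset_refl mult_refl)
open Pool.Agent.T2H62.MQ (W2 k0 trace_wt)

theorem trace_two (r : ℕ) (γ : ℝ) (h0 : 0 < γ) (hπ : γ < Real.pi) {d A Q : ℝ} {F : ℂ → ℂ}
    {a : ℕ → ℂ} (hF : GoodE d A Q F a) (T Λ V1 V2 : ℝ) (hΛ : 0 < Λ) (hT : 0 ≤ T) (hV : 1 ≤ V1)
    (hfin : (zset F V1 V2).Finite) :
    ∑ s ∈ hfin.toFinset, W2 r F T s ≤
      (2 / (Real.sqrt Real.pi * Λ)) * (∫ u in (0 : ℝ)..Λ, Rw γ (u / Λ) *
          ∫ t : ℝ, ‖BB F V1 V2 T u t‖ ^ 2) := by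
  classical
  obtain ⟨lam, hlr⟩ : ∃ lam : ℝ, lam = (r : ℝ) + 1 := ⟨_, rfl⟩
  have hr0 : (0 : ℝ) ≤ r := Nat.cast_nonneg r
  have hlam : 0 < lam := by linarith
  set Zf := hfin.toFinset with hZf
  have hmem : ∀ {s}, s ∈ Zf ↔ s ∈ zset F V1 V2 := by
    intro s; rw [hZf, Set.Finite.mem_toFinset]
  set Z := Zf.image zz with hZdef
  have hinj : Set.InjOn zz (Zf : Set ℂ) := fun s _ s' _ h => zz_inj h
  have hZ : ∀ z ∈ Z, (starRingEnd ℂ) z ∈ Z := by
    intro z hz
    obtain ⟨s, hs, rfl⟩ := Finset.mem_image.mp hz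
    rw [← zz_refl]
    exact Finset.mem_image_of_mem _ (hmem.2 (zset_refl hF hV (hmem.1 hs)))
  have hac : ∀ z ∈ Z, aw F T ((starRingEnd ℂ) z) = (starRingEnd ℂ) (aw F T z) := by
    intro z hz
    obtain ⟨s, hs, rfl⟩ := Finset.mem_image.mp hz
    obtain ⟨h1, h2, h3, h4, h5⟩ := hmem.1 hs
    rw [← zz_refl, aw_zz, aw_zz, map_mul, Complex.conj_natCast, cc_conj, zz_refl,
      mult_refl hF h1 h2 (by linarith)]
  obtain ⟨E, i1, i2, k, hk⟩ := gram_w γ h0 hπ Λ
  obtain ⟨t, ht⟩ : ∃ t : ℝ, t = 2 / lam := ⟨_, rfl⟩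
  have hac' : ∀ z ∈ Z, (fun z => ((t : ℝ) : ℂ) * aw F T z) ((starRingEnd ℂ) z) =
      (starRingEnd ℂ) ((fun z => ((t : ℝ) : ℂ) * aw F T z) z) := by
    intro z hz
    simp only [map_mul, Complex.conj_ofReal]
    rw [hac z hz]
  set S := Z.filter (fun z => z.im = 0 ∧ mult F (1 / 2 + I * z) ≤ r) with hS
  have hSZ : S ⊆ Z := Finset.filter_subset _ _
  have ht0 : 0 < t := by rw [ht]; positivity
  have hSa : ∀ z ∈ S, 0 ≤ (aw F T z).re := by
    intro z hz
    obtain ⟨hz1, hz2, hz3⟩ := Finset.mem_filter.mp hz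
    have hzr : z = ((z.re : ℝ) : ℂ) := by
      apply Complex.ext
      · simp
      · simp [hz2]
    have h4 := cc_real T z.re hT
    rw [← hzr] at h4
    unfold aw
    rw [← Complex.ofReal_natCast, Complex.re_ofReal_mul]
    exact mul_nonneg (Nat.cast_nonneg _) h4.2.1
  have hSr : ∀ z ∈ S, z.im = 0 ∧ 0 ≤ ((fun z => ((t : ℝ) : ℂ) * aw F T z) z).re := by
    intro z hz
    refine ⟨(Finset.mem_filter.mp hz).2.1, ?_⟩
    show 0 ≤ (((t : ℝ) : ℂ) * aw F T z).re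
    rw [Complex.re_ofReal_mul]
    exact mul_nonneg ht0.le (hSa z hz)
  obtain ⟨θ, hθ⟩ : ∃ θ : ℝ, θ = 2 * r / lam := ⟨_, rfl⟩
  have hθ0 : 0 ≤ θ := by rw [hθ]; positivity
  have hθ2 : θ ≤ 2 := by
    rw [hθ, div_le_iff₀ hlam]
    linarith
  have hmain := trace_wt θ hθ0 hθ2 (phiw γ Λ) k hk (phiw_even γ Λ) (phiw_zero γ h0 hπ Λ) Z hZ
    (fun z => ((t : ℝ) : ℂ) * aw F T z) hac' S hSZ hSr
  have hq := quad_form γ Λ hΛ (kapw_sq γ h0 hπ) (Rw_cont γ h0 hπ) (Rw_even γ) Z hZ (aw F T) hac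
  have hBB : ∀ u t : ℝ, ∑ z ∈ Z, aw F T z * (cexp (I * u * z) * cexp (-(z - t) ^ 2 / 2)) =
      BB F V1 V2 T u t := by
    intro u t
    unfold BB
    rw [finsum_mem_eq_finite_toFinset_sum _ hfin, hZdef, Finset.sum_image hinj]
    refine Finset.sum_congr rfl fun s _ => ?_
    rw [aw_zz]
  simp_rw [hBB] at hq
  rw [← hq]
  -- scaling
  have hsc : (∑ z ∈ Z, ∑ w ∈ Z, ((t : ℝ) : ℂ) * aw F T z * (((t : ℝ) : ℂ) * aw F T w) * (phiw γ Λ (z - w)) ^ 2).re =
      t ^ 2 * (∑ z ∈ Z, ∑ w ∈ Z, aw F T z * aw F T w * (phiw γ Λ (z - w)) ^ 2).re := by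
    rw [← Complex.re_ofReal_mul]
    congr 1
    rw [Finset.mul_sum]
    refine Finset.sum_congr rfl fun z _ => ?_
    rw [Finset.mul_sum]
    refine Finset.sum_congr rfl fun w _ => ?_
    push_cast
    ring
  have hlin : (∑ z ∈ Z, ((t : ℝ) : ℂ) * aw F T z).re = t * (∑ z ∈ Z, aw F T z).re := by
    rw [← Finset.mul_sum, Complex.re_ofReal_mul]
  have hlin2 : (∑ z ∈ S, (((t : ℝ) : ℂ) * aw F T z).re) = t * ∑ z ∈ S, (aw F T z).re := by
    rw [Finset.mul_sum]
    refine Finset.sum_congr rfl fun z _ => ?_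
    rw [Complex.re_ofReal_mul]
  rw [hsc, hlin, hlin2] at hmain
  obtain ⟨QQ, hQQ⟩ : ∃ x, x = (∑ z ∈ Z, ∑ w ∈ Z, aw F T z * aw F T w * (phiw γ Λ (z - w)) ^ 2).re := ⟨_, rfl⟩
  rw [← hQQ] at hmain ⊢
  -- compute the left hand side
  have c1 : (∑ z ∈ Z, aw F T z).re = ∑ s ∈ Zf, (mult F s : ℝ) * (cc T (zz s)).re := by
    rw [hZdef, Finset.sum_image hinj, Complex.re_sum]
    refine Finset.sum_congr rfl fun s _ => ?_
    rw [aw_zz, ← Complex.ofReal_natCast, Complex.re_ofReal_mul]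
  have him0 : ∀ s, (zz s).im = 0 ↔ s.re = 1 / 2 := by
    intro s; rw [zz_im]; constructor <;> intro h <;> linarith
  have c2 : (S.card : ℝ) = ∑ s ∈ Zf, if (s.re = 1 / 2 ∧ mult F s ≤ r) then 1 else 0 := by
    rw [hS, Finset.card_filter, Nat.cast_sum, hZdef, Finset.sum_image hinj]
    refine Finset.sum_congr rfl fun s _ => ?_
    simp only [him0, zz_spec, Nat.cast_ite, Nat.cast_one, Nat.cast_zero]
  have c2' : (∑ z ∈ S, (aw F T z).re) =
      ∑ s ∈ Zf, if (s.re = 1 / 2 ∧ mult F s ≤ r) then (mult F s : ℝ) * (cc T (zz s)).re else 0 := by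
    rw [hS, Finset.sum_filter, hZdef, Finset.sum_image hinj]
    refine Finset.sum_congr rfl fun s _ => ?_
    simp only [him0, zz_spec]
    rw [aw_zz, ← Complex.ofReal_natCast, Complex.re_ofReal_mul]
  have c3 : (((Z \ S).filter (fun z => z.im = 0)).card : ℝ) =
      ∑ s ∈ Zf, if (s.re = 1 / 2 ∧ ¬ mult F s ≤ r) then 1 else 0 := by
    have : (Z \ S).filter (fun z => z.im = 0) =
        Z.filter (fun z => z.im = 0 ∧ ¬ mult F (1 / 2 + I * z) ≤ r) := by
      ext z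
      simp only [hS, Finset.mem_filter, Finset.mem_sdiff]
      tauto
    rw [this, Finset.card_filter, Nat.cast_sum, hZdef, Finset.sum_image hinj]
    refine Finset.sum_congr rfl fun s _ => ?_
    simp only [him0, zz_spec, Nat.cast_ite, Nat.cast_one, Nat.cast_zero]
  have c4 : 2 * ((Z.filter (fun z => 0 < z.im)).card : ℝ) =
      ∑ s ∈ Zf, if s.re = 1 / 2 then 0 else 1 := by
    have e1 : (Z.filter (fun z => z.im < 0)).card = (Z.filter (fun z => 0 < z.im)).card := by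
      refine Finset.card_nbij' (fun z => (starRingEnd ℂ) z) (fun z => (starRingEnd ℂ) z) ?_ ?_ ?_ ?_
      · intro z hz
        simp only [Finset.coe_filter, Set.mem_ofPred_eq] at hz ⊢
        refine ⟨hZ z hz.1, ?_⟩
        rw [Complex.conj_im]; linarith [hz.2]
      · intro z hz
        simp only [Finset.coe_filter, Set.mem_ofPred_eq] at hz ⊢
        refine ⟨hZ z hz.1, ?_⟩
        rw [Complex.conj_im]; linarith [hz.2]
      · intro z _; simp
      · intro z _; simp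
    have e2 : (Z.filter (fun z => ¬ z.im = 0)).card =
        (Z.filter (fun z => z.im < 0)).card + (Z.filter (fun z => 0 < z.im)).card := by
      rw [← Finset.card_union_of_disjoint]
      · congr 1
        ext z
        simp only [Finset.mem_filter, Finset.mem_union]
        constructor
        · rintro ⟨h1, h2⟩
          rcases lt_or_gt_of_ne h2 with h | h
          · exact Or.inl ⟨h1, h⟩
          · exact Or.inr ⟨h1, h⟩
        · rintro (⟨h1, h2⟩ | ⟨h1, h2⟩)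
          · exact ⟨h1, ne_of_lt h2⟩
          · exact ⟨h1, ne_of_gt h2⟩
      · rw [Finset.disjoint_filter]
        intro z _ h1 h2
        linarith
    have e3 : 2 * ((Z.filter (fun z => 0 < z.im)).card : ℝ) =
        ((Z.filter (fun z => ¬ z.im = 0)).card : ℝ) := by
      rw [e2, e1]; push_cast; ring
    rw [e3, Finset.card_filter, Nat.cast_sum, hZdef, Finset.sum_image hinj]
    refine Finset.sum_congr rfl fun s _ => ?_
    simp only [him0, Nat.cast_ite, Nat.cast_one, Nat.cast_zero, ite_not]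
  have c5 : ∑ s ∈ Zf, W2 r F T s =
      2 * ((r : ℝ) + 1) * (∑ s ∈ Zf, (mult F s : ℝ) * (cc T (zz s)).re) -
      2 * (∑ s ∈ Zf, if (s.re = 1 / 2 ∧ mult F s ≤ r) then (mult F s : ℝ) * (cc T (zz s)).re else 0) -
      (r : ℝ) ^ 2 * (∑ s ∈ Zf, if (s.re = 1 / 2 ∧ mult F s ≤ r) then (1 : ℝ) else 0) -
      (((r : ℝ) + 1) ^ 2 * (∑ s ∈ Zf, if (s.re = 1 / 2 ∧ ¬ mult F s ≤ r) then (1 : ℝ) else 0) +
        ((r : ℝ) + 1) ^ 2 / 2 * (∑ s ∈ Zf, if s.re = 1 / 2 then (0 : ℝ) else 1)) := by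
    rw [Finset.mul_sum, Finset.mul_sum, Finset.mul_sum, Finset.mul_sum, Finset.mul_sum,
      ← Finset.sum_sub_distrib, ← Finset.sum_sub_distrib, ← Finset.sum_add_distrib,
      ← Finset.sum_sub_distrib]
    refine Finset.sum_congr rfl fun s _ => ?_
    unfold W2 k0
    by_cases h1 : s.re = 1 / 2
    · have p3 : (s.re = 1 / 2) = True := eq_true h1
      by_cases h2 : mult F s ≤ r
      · have p4 : (mult F s ≤ r) = True := eq_true h2
        simp only [p3, p4, true_and, not_true_eq_false, if_true, if_false]; ring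
      · have p4 : (mult F s ≤ r) = False := eq_false h2
        simp only [p3, p4, true_and, not_false_eq_true, if_true, if_false]; ring
    · have p3 : (s.re = 1 / 2) = False := eq_false h1
      simp only [p3, false_and, if_false]; ring
  rw [c5, ← c1, ← c2, ← c2', ← c3, ← c4, ← hlr]
  obtain ⟨S1, hS1⟩ : ∃ x, x = (∑ z ∈ Z, aw F T z).re := ⟨_, rfl⟩
  obtain ⟨S2, hS2⟩ : ∃ x, x = (∑ z ∈ S, (aw F T z).re) := ⟨_, rfl⟩
  obtain ⟨n2, hn2⟩ : ∃ x, x = (S.card : ℝ) := ⟨_, rfl⟩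
  obtain ⟨n3, hn3⟩ : ∃ x, x = (((Z \ S).filter (fun z => z.im = 0)).card : ℝ) := ⟨_, rfl⟩
  obtain ⟨n4, hn4⟩ : ∃ x, x = ((Z.filter (fun z => 0 < z.im)).card : ℝ) := ⟨_, rfl⟩
  rw [← hS1, ← hS2, ← hn2, ← hn3, ← hn4] at hmain ⊢
  have e4 : lam * t = 2 := by rw [ht]; field_simp
  have e4' : lam * θ = 2 * r := by rw [hθ]; field_simp
  have e5 : lam ^ 2 / 4 * (t ^ 2 * QQ) = QQ := by
    have : lam ^ 2 / 4 * (t ^ 2 * QQ) = (lam * t) ^ 2 / 4 * QQ := by ring
    rw [this, e4]; ring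
  have e6 := mul_le_mul_of_nonneg_left hmain (show 0 ≤ lam ^ 2 / 4 by positivity)
  rw [e5] at e6
  refine le_trans (le_of_eq ?_) e6
  have e7 : lam ^ 2 / 4 * (4 * (t * S1) - 2 * (2 - θ) * (t * S2) - θ ^ 2 * n2 - 4 * (n3 + n4)) =
      lam * (lam * t) * S1 - (lam - lam * θ / 2) * (lam * t) * S2 - (lam * θ) ^ 2 / 4 * n2 -
        lam ^ 2 * (n3 + n4) := by ring
  rw [e7, e4, e4', hlr]
  ring

theorem core_two (r : ℕ) (hr : 1 ≤ r) (γ : ℝ) (h0 : 0 < γ) (hπ : γ < Real.pi) (d A : ℝ) (hd : 1 ≤ d)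
    (hA : 1 ≤ A) :
    ∃ C : ℝ, 0 < C ∧ ∀ (Q : ℝ) (F : ℂ → ℂ) (a : ℕ → ℂ), 1 ≤ Q → GoodE d A Q F a →
    ∀ (w : ℂ → ℝ), (∀ s, w s = (2 * (r : ℝ) + 1) * (mult F s : ℝ) - r * (r + 1)) →
    ∀ T κ Λ V1 V2 : ℝ, 3 ≤ κ → 8 * κ ≤ T → 1 ≤ Λ → T - 3 * κ ≤ V1 → V1 ≤ T - 3 * κ + 1 →
      2 * T + 3 * κ - 1 ≤ V2 → V2 ≤ 2 * T + 3 * κ →
      ∀ hfin : (zset F T (2 * T)).Finite, ∑ s ∈ hfin.toFinset, w s ≤
        (2 / (Real.sqrt Real.pi * Λ)) * (∫ u in (0 : ℝ)..Λ, Rw γ (u / Λ) *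
          ∫ t : ℝ, ‖BB F V1 V2 T u t‖ ^ 2)
        + C * (κ + T * Real.exp (-κ ^ 2 / 2)) * Real.log (Q * T) := by
  obtain ⟨C0, hC0, hcount⟩ := zcount_long_D d A hd hA
  obtain ⟨lam, hlr⟩ : ∃ lam : ℝ, lam = (r : ℝ) + 1 := ⟨_, rfl⟩
  have hr1 : (1 : ℝ) ≤ r := by exact_mod_cast hr
  have hlam : 1 ≤ lam := by linarith
  refine ⟨240 * lam ^ 2 * C0, by positivity, ?_⟩
  intro Q F a hQ hFU w hw T κ Λ V1 V2 hκ hκT hΛ hV1 hV1' hV2 hV2' hfin
  have hlam0 : 0 < lam := by linarith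
  have hlam2 : lam ≤ lam ^ 2 := by nlinarith
  have hV1pos : 15 ≤ V1 := by linarith
  have hT24 : 24 ≤ T := by linarith
  have hfinV : (zset F V1 V2).Finite := zset_finite_D hA hQ hFU V1 V2 (by linarith)
  have htr := trace_two r γ h0 hπ hFU T Λ V1 V2 (by linarith) (by linarith) (by linarith) hfinV
  set e := Real.exp (-κ ^ 2 / 2) with he
  have he0 : 0 < e := Real.exp_pos _
  -- counts
  have hNV := hcount Q F a hQ hFU V1 V2 (by linarith) (by linarith)
  have hNa := hcount Q F a hQ hFU V1 (T + κ) (by linarith) (by linarith)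
  have hNb := hcount Q F a hQ hFU (2 * T - κ) V2 (by linarith) (by linarith)
  set L := Real.log (Q * T) with hL
  have hL0 : 0 ≤ L := Real.log_nonneg (by nlinarith)
  have l1 : Real.log (Q * V2) ≤ 2 * L := log_bd hQ (by linarith) (by linarith) (by linarith)
  have l2 : Real.log (Q * (T + κ)) ≤ 2 * L := log_bd hQ (by linarith) (by linarith) (by linarith)
  have aux : ∀ x y z w : ℝ, 0 ≤ y → x ≤ y → z ≤ 2 * L → 0 ≤ z → w ≤ C0 * x * z →
      w ≤ C0 * y * (2 * L) := by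
    intro x y z w hy hxy hz hz0 hw
    refine hw.trans ?_
    have h1 : C0 * x * z ≤ C0 * y * z := by gcongr
    refine h1.trans ?_
    gcongr
  have p1 : 0 ≤ Real.log (Q * V2) := Real.log_nonneg (by nlinarith)
  have p2 : 0 ≤ Real.log (Q * (T + κ)) := Real.log_nonneg (by nlinarith)
  have b1 : (NN F V1 V2 : ℝ) ≤ C0 * (2 * T) * (2 * L) :=
    aux _ _ _ _ (by linarith) (by linarith) l1 p1 hNV
  have b2 : (NN F V1 (T + κ) : ℝ) ≤ C0 * (4 * κ) * (2 * L) :=
    aux _ _ _ _ (by linarith) (by linarith) l2 p2 hNa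
  have b3 : (NN F (2 * T - κ) V2 : ℝ) ≤ C0 * (4 * κ) * (2 * L) :=
    aux _ _ _ _ (by linarith) (by linarith) l1 p1 hNb
  -- sums over zeros
  have hmulti : ∀ s ∈ hfinV.toFinset, 1 ≤ mult F s := by
    intro s hs
    rw [Set.Finite.mem_toFinset] at hs
    exact LocD.mult_pos_D hA hFU (by linarith [hs.2.2.1]) hs.2.2.2.2
  have n1 : (NN F V1 V2 : ℝ) = ∑ s ∈ hfinV.toFinset, (mult F s : ℝ) := by
    unfold NN
    rw [finsum_mem_eq_finite_toFinset_sum _ hfinV]
    push_cast; rfl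
  have n2 : (NN F V1 (T + κ) : ℝ) =
      ∑ s ∈ hfinV.toFinset, if s.im ≤ T + κ then (mult F s : ℝ) else 0 := by
    have hf : (zset F V1 (T + κ)).Finite := zset_finite_D hA hQ hFU V1 _ (by linarith)
    unfold NN
    rw [finsum_mem_eq_finite_toFinset_sum _ hf, ← Finset.sum_filter]
    push_cast
    refine Finset.sum_congr ?_ fun _ _ => rfl
    ext s
    simp only [Finset.mem_filter, Set.Finite.mem_toFinset]
    constructor
    · rintro ⟨h1, h2, h3, h4, h5⟩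
      exact ⟨⟨h1, h2, h3, by linarith, h5⟩, h4⟩
    · rintro ⟨⟨h1, h2, h3, h4, h5⟩, h6⟩
      exact ⟨h1, h2, h3, h6, h5⟩
  have n3 : (NN F (2 * T - κ) V2 : ℝ) =
      ∑ s ∈ hfinV.toFinset, if 2 * T - κ < s.im then (mult F s : ℝ) else 0 := by
    have hf : (zset F (2 * T - κ) V2).Finite := zset_finite_D hA hQ hFU _ _ (by linarith)
    unfold NN
    rw [finsum_mem_eq_finite_toFinset_sum _ hf, ← Finset.sum_filter]
    push_cast
    refine Finset.sum_congr ?_ fun _ _ => rfl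
    ext s
    simp only [Finset.mem_filter, Set.Finite.mem_toFinset]
    constructor
    · rintro ⟨h1, h2, h3, h4, h5⟩
      exact ⟨⟨h1, h2, by linarith, h4, h5⟩, h3⟩
    · rintro ⟨⟨h1, h2, h3, h4, h5⟩, h6⟩
      exact ⟨h1, h2, h6, h4, h5⟩
  have n4 : ∑ s ∈ hfin.toFinset, w s =
      ∑ s ∈ hfinV.toFinset, if T < s.im ∧ s.im ≤ 2 * T then w s else 0 := by
    rw [← Finset.sum_filter]
    refine Finset.sum_congr ?_ fun _ _ => rfl
    ext s
    simp only [Finset.mem_filter, Set.Finite.mem_toFinset]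
    constructor
    · rintro ⟨h1, h2, h3, h4, h5⟩
      exact ⟨⟨h1, h2, by linarith, by linarith, h5⟩, h3, h4⟩
    · rintro ⟨⟨h1, h2, h3, h4, h5⟩, h6, h7⟩
      exact ⟨h1, h2, h6, h7, h5⟩
  have hpt : ∀ s ∈ hfinV.toFinset, (if T < s.im ∧ s.im ≤ 2 * T then w s else 0) ≤
      W2 r F T s + 4 * lam * e * (mult F s : ℝ) +
        7 * lam ^ 2 * (if s.im ≤ T + κ then (mult F s : ℝ) else 0) +
        7 * lam ^ 2 * (if 2 * T - κ < s.im then (mult F s : ℝ) else 0) := by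
    intro s hs
    have hm := hmulti s hs
    have hm' : (1 : ℝ) ≤ (mult F s : ℝ) := by exact_mod_cast hm
    have h2 : w s ≤ 2 * lam * (mult F s : ℝ) := by
      rw [hw, hlr]
      have h3 : 0 ≤ (r : ℝ) * (r + 1) := by positivity
      linarith
    rw [Set.Finite.mem_toFinset] at hs
    have him : |(zz s).im| ≤ 1 / 2 := by
      rw [zz_im, abs_le]; constructor <;> linarith [hs.1, hs.2.1]
    have hk2 : k0 ((r : ℝ) + 1) s ≤ lam ^ 2 := by
      have : 0 ≤ ((r : ℝ) + 1) ^ 2 := by positivity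
      rw [hlr]
      unfold k0; split_ifs <;> linarith
    have hcre : -2 ≤ (cc T (zz s)).re := by
      have h3 := cc_bound T (by linarith) (zz s) him
      have h4 := Complex.abs_re_le_norm (cc T (zz s))
      linarith [neg_abs_le (cc T (zz s)).re]
    have hWlow : - (4 * lam * (mult F s : ℝ)) - lam ^ 2 ≤ W2 r F T s := by
      have h5 : 2 * lam * (mult F s : ℝ) * (-2) ≤ 2 * lam * (mult F s : ℝ) * (cc T (zz s)).re :=
        mul_le_mul_of_nonneg_left hcre (by positivity)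
      have h6 : 2 * (r : ℝ) * (mult F s : ℝ) * (-2) ≤ 2 * (r : ℝ) * (mult F s : ℝ) * (cc T (zz s)).re :=
        mul_le_mul_of_nonneg_left hcre (by positivity)
      have h7 : (r : ℝ) ^ 2 ≤ lam ^ 2 := by rw [hlr]; nlinarith
      have h8 : (r : ℝ) * (mult F s : ℝ) ≤ lam * (mult F s : ℝ) :=
        mul_le_mul_of_nonneg_right (by linarith) (by linarith)
      unfold W2
      rw [← hlr] at hk2 ⊢
      split_ifs <;> linarith
    have hedge : ∀ X : ℝ, X ≤ 2 * lam * (mult F s : ℝ) → X ≤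
        W2 r F T s + 4 * lam * e * (mult F s : ℝ) +
        7 * lam ^ 2 * (mult F s : ℝ) := by
      intro X hX
      have h6 : 0 ≤ 4 * lam * e * (mult F s : ℝ) := by positivity
      have h7 : lam * (mult F s : ℝ) ≤ lam ^ 2 * (mult F s : ℝ) :=
        mul_le_mul_of_nonneg_right hlam2 (by linarith)
      have h8 : lam ^ 2 * 1 ≤ lam ^ 2 * (mult F s : ℝ) := mul_le_mul_of_nonneg_left hm' (by positivity)
      nlinarith
    have hX3 : (if T < s.im ∧ s.im ≤ 2 * T then w s else 0) ≤ 2 * lam * (mult F s : ℝ) := by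
      split_ifs
      · exact h2
      · positivity
    by_cases c1 : s.im ≤ T + κ
    · rw [if_pos c1]
      have h7 : 0 ≤ 7 * lam ^ 2 * (if 2 * T - κ < s.im then (mult F s : ℝ) else 0) := by
        split_ifs <;> positivity
      linarith [hedge _ hX3]
    · rw [if_neg c1]
      by_cases c2 : 2 * T - κ < s.im
      · rw [if_pos c2]
        linarith [hedge _ hX3]
      · rw [if_neg c2, if_pos ⟨by push Not at c1; linarith, by push Not at c2; linarith⟩]
        push Not at c1 c2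
        have h8 := cc_near T κ (by linarith) (zz s) him (by rw [zz_re]; linarith)
          (by rw [zz_re]; linarith)
        have h9 : 1 - 2 * e ≤ (cc T (zz s)).re := by
          have h10 := Complex.abs_re_le_norm (cc T (zz s) - 1)
          rw [Complex.sub_re, Complex.one_re] at h10
          linarith [neg_abs_le ((cc T (zz s)).re - 1)]
        have h11 : 2 * lam * (mult F s : ℝ) * (1 - 2 * e) ≤ 2 * lam * (mult F s : ℝ) * (cc T (zz s)).re :=
          mul_le_mul_of_nonneg_left h9 (by positivity)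
        have h12 : 2 * (r : ℝ) * (mult F s : ℝ) * (1 - 2 * e) ≤
            2 * (r : ℝ) * (mult F s : ℝ) * (cc T (zz s)).re :=
          mul_le_mul_of_nonneg_left h9 (by positivity)
        have h13 : (r : ℝ) * (mult F s : ℝ) * e ≤ lam * (mult F s : ℝ) * e :=
          mul_le_mul_of_nonneg_right (mul_le_mul_of_nonneg_right (by linarith) (by linarith)) he0.le
        have hW : w s ≤ W2 r F T s + 4 * lam * e * (mult F s : ℝ) := by
          rw [hw]
          unfold W2 k0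
          rw [← hlr]
          by_cases g1 : s.re = 1 / 2
          · by_cases g2 : mult F s ≤ r
            · rw [if_pos ⟨g1, g2⟩]
              have g3 : (mult F s : ℝ) ≤ r := by exact_mod_cast g2
              rw [hlr] at h13 ⊢
              linarith
            · rw [if_neg (fun h => g2 h.2), if_pos g1]
              have g3 : (r : ℝ) + 1 ≤ mult F s := by
                have : r + 1 ≤ mult F s := by omega
                exact_mod_cast this
              rw [hlr] at h11 ⊢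
              nlinarith
          · rw [if_neg (fun h => g1 h.1), if_neg g1]
            have g4 : 0 ≤ ((r : ℝ) + 1) * (r - 1) := mul_nonneg (by linarith) (by linarith)
            rw [hlr] at h11 ⊢
            nlinarith
        linarith
  have hsum := Finset.sum_le_sum hpt
  rw [← n4] at hsum
  rw [Finset.sum_add_distrib, Finset.sum_add_distrib, Finset.sum_add_distrib, ← Finset.mul_sum,
    ← Finset.mul_sum, ← Finset.mul_sum, ← n1, ← n2, ← n3] at hsum
  calc ∑ s ∈ hfin.toFinset, w s ≤ _ := hsum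
    _ ≤ (2 / (Real.sqrt Real.pi * Λ)) * (∫ u in (0 : ℝ)..Λ, Rw γ (u / Λ) *
          ∫ t : ℝ, ‖BB F V1 V2 T u t‖ ^ 2) + 4 * lam * e * (C0 * (2 * T) * (2 * L)) +
          7 * lam ^ 2 * (C0 * (4 * κ) * (2 * L)) + 7 * lam ^ 2 * (C0 * (4 * κ) * (2 * L)) := by
        gcongr
    _ ≤ _ := by
        have h1 : 0 ≤ C0 * T * e * L := by positivity
        have h2 : lam * (C0 * T * e * L) ≤ lam ^ 2 * (C0 * T * e * L) := mul_le_mul_of_nonneg_right hlam2 h1
        have h3 : 0 ≤ lam ^ 2 * (C0 * κ * L) := by positivity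
        nlinarith

/-- the basic inequality with the number of distinct zeros and two levels -/
theorem per_two (r : ℕ) (hr : 1 ≤ r) (γ : ℝ) (h0 : 0 < γ) (hπ : γ < Real.pi) (d A : ℝ) (hd : 1 ≤ d)
    (hA : 1 ≤ A) :
    ∃ C : ℝ, 0 < C ∧ ∀ (Q : ℝ) (F : ℂ → ℂ) (a : ℕ → ℂ), 1 ≤ Q → GoodE d A Q F a →
    ∀ T κ Λ V1 V2 : ℝ, 3 ≤ κ → 8 * κ ≤ T → 1 ≤ Λ → T - 3 * κ ≤ V1 → V1 ≤ T - 3 * κ + 1 →
      2 * T + 3 * κ - 1 ≤ V2 → V2 ≤ 2 * T + 3 * κ →
      (2 * (r : ℝ) + 1) * (NN F T (2 * T) : ℝ) - r * (r + 1) * (Nd F T (2 * T) : ℝ) ≤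
        (2 / (Real.sqrt Real.pi * Λ)) * (∫ u in (0 : ℝ)..Λ, Rw γ (u / Λ) *
          ∫ t : ℝ, ‖BB F V1 V2 T u t‖ ^ 2)
        + C * (κ + T * Real.exp (-κ ^ 2 / 2)) * Real.log (Q * T) := by
  classical
  obtain ⟨C, hC, h⟩ := core_two r hr γ h0 hπ d A hd hA
  refine ⟨C, hC, ?_⟩
  intro Q F a hQ hFU T κ Λ V1 V2 hκ hκT hΛ hV1 hV1' hV2 hV2'
  have hfin : (zset F T (2 * T)).Finite := zset_finite_D hA hQ hFU T _ (by linarith)
  have h1 := h Q F a hQ hFU
    (fun s => (2 * (r : ℝ) + 1) * (mult F s : ℝ) - r * (r + 1)) (fun s => rfl)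
    T κ Λ V1 V2 hκ hκT hΛ hV1 hV1' hV2 hV2' hfin
  refine le_trans (le_of_eq ?_) h1
  rw [Finset.sum_sub_distrib, ← Finset.mul_sum]
  congr 1
  · congr 1
    unfold NN
    rw [finsum_mem_eq_finite_toFinset_sum _ hfin]
    push_cast; rfl
  · unfold Nd
    rw [Set.ncard_eq_toFinset_card _ hfin, Finset.sum_const, nsmul_eq_mul]
    ring

end W388.T2H62
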