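import Pool.Agent.T2H62.MX.B
import Pool.Agent.T2H62.MQ.E
import Pool.Agent.W388.TW.Final

/-!
# Distinct zeros of the twists of an L-function of degree `d`
-/

open Complex Filter Topology Set MeasureTheory
open H370 (zset mult NN Nd Ns)

set_option maxHeartbeats 4000000

namespace W388.T2H62

open H385
open Pool.Agent.T2H62.MQ (window)

/-- the family theorem for twists of an `L`-function of degree `d` with orthonormal coefficients, two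
levels: the proportion of the distinct zeros -/
theorem distinct_E (d A : ℝ) (hd : 1 ≤ d) (hA : 1 ≤ A) (M : ℕ) (hM : Squarefree M)
    (c : ℕ → ℂ) (F : (q : ℕ) → DirichletCharacter ℂ q → ℂ → ℂ) (hF : TwE d A M c F)
    (hS : SelE c) (r : ℕ) (hr : 1 ≤ r) (ε : ℝ) (hε : 0 < ε) :
    ∃ K η X0 : ℝ, 1 ≤ K ∧ 0 < η ∧ 1 ≤ X0 ∧
    ∀ (X Y : ℕ) (T : ℝ), X0 ≤ X → K * X ≤ Y → (Y : ℝ) ≤ (X : ℝ) ^ (1 + η) →
      (Real.log X) ^ 2 ≤ T → T ≤ (X : ℝ) ^ η →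
      ((2 * r + 1 - (d / 2 + 2 / (3 * d))) / (r * (r + 1)) - ε) *
          primFamM M X Y (fun q χ => (NN (F q χ) T (2 * T) : ℝ)) ≤
        primFamM M X Y (fun q χ => (Nd (F q χ) T (2 * T) : ℝ)) := by
  have hd0 : 0 < d := by linarith
  have hr1 : (1 : ℝ) ≤ r := by exact_mod_cast hr
  obtain ⟨a, ha⟩ : ∃ a : ℝ, a = d / 2 + 2 / (3 * d) := ⟨_, rfl⟩
  have ha0 : 0 < a := by rw [ha]; positivity
  obtain ⟨θ, hθ⟩ : ∃ θ : ℝ, θ = min 1 (ε / (6 * a)) := ⟨_, rfl⟩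
  have hθ0 : 0 < θ := by rw [hθ]; exact lt_min one_pos (by positivity)
  have hθ1 : θ ≤ 1 := by rw [hθ]; exact min_le_left _ _
  have hθ2 : θ * a ≤ ε / 6 := by
    have h1 : θ ≤ ε / (6 * a) := by rw [hθ]; exact min_le_right _ _
    rw [le_div_iff₀ (by positivity)] at h1
    linarith
  obtain ⟨γ, hγ0, hγπ, hR, hJ⟩ := window θ hθ0 hθ1
  have hR0 : 0 ≤ Rw γ 0 := Rw_nonneg γ hγ0 hγπ 0
  obtain ⟨J, hJd⟩ : ∃ J, J = ∫ α in (0 : ℝ)..1, α * Rw γ α := ⟨_, rfl⟩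
  have hJ0 : 0 ≤ J := by
    rw [hJd]
    exact intervalIntegral.integral_nonneg zero_le_one (fun α hα => mul_nonneg hα.1 (Rw_nonneg γ hγ0 hγπ α))
  rw [← hJd] at hJ
  obtain ⟨β, hβ⟩ : ∃ β : ℝ, β = 2 / (1 + θ) := ⟨_, rfl⟩
  have hβ0 : 0 < β := by rw [hβ]; positivity
  have hβ2 : β < 2 := by
    rw [hβ, div_lt_iff₀ (by positivity)]
    linarith
  have hH := p_mean M hM c hS γ β hγ0 hγπ hβ0 hβ2
  rw [← hJd] at hH
  obtain ⟨K, η, X0, hK, hη, hX0, h⟩ := final_two r hr d A hd hA M c F hF γ β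
    (2 * β * J) hγ0 hγπ hβ0 (by positivity) hR0 hH (ε / 2) (by positivity)
  refine ⟨K, η, X0, hK, hη, hX0, ?_⟩
  intro X Y T a1 a2 a3 a4 a5
  have b := h X Y T a1 a2 a3 a4 a5
  obtain ⟨SN, hSN⟩ : ∃ x, x = primFamM M X Y (fun q χ => (NN (F q χ) T (2 * T) : ℝ)) := ⟨_, rfl⟩
  obtain ⟨SD, hSD⟩ : ∃ x, x = primFamM M X Y (fun q χ => (Nd (F q χ) T (2 * T) : ℝ)) := ⟨_, rfl⟩
  have hSN0 : 0 ≤ SN := by
    rw [hSN]
    exact primFamM_nonneg _ _ _ _ (fun _ _ => Nat.cast_nonneg _)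
  have l1 := primFamM_lin M X Y (2 * (r : ℝ) + 1) (r * (r + 1)) (fun q χ => (NN (F q χ) T (2 * T) : ℝ))
    (fun q χ => (Nd (F q χ) T (2 * T) : ℝ))
  rw [l1, ← hSN, ← hSD] at b
  rw [← hSN, ← hSD, ← ha]
  -- the constant
  have hc : d * Rw γ 0 / β + 2 * β * J / d + ε / 2 ≤ a + ε := by
    have e2 : d * Rw γ 0 / β ≤ d * (1 + θ) ^ 2 / 2 := by
      rw [hβ, div_div_eq_mul_div]
      apply div_le_div_of_nonneg_right _ (by norm_num)
      calc d * Rw γ 0 * (1 + θ) ≤ d * (1 + θ) * (1 + θ) := by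
            apply mul_le_mul_of_nonneg_right _ (by positivity)
            exact mul_le_mul_of_nonneg_left hR (by linarith)
        _ = _ := by ring
    have e3 : 2 * β * J ≤ 2 / 3 * (1 + θ) ^ 2 := by
      have h1 : β * J ≤ 2 * J := mul_le_mul_of_nonneg_right hβ2.le hJ0
      have h2 : (1 + θ) ≤ (1 + θ) ^ 2 := by nlinarith
      linarith
    have e3' : 2 * β * J / d ≤ 2 / (3 * d) * (1 + θ) ^ 2 := by
      calc 2 * β * J / d ≤ 2 / 3 * (1 + θ) ^ 2 / d := div_le_div_of_nonneg_right e3 hd0.le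
        _ = _ := by field_simp
    have e4 : (1 + θ) ^ 2 ≤ 1 + 3 * θ := by nlinarith
    have e5 : (1 + θ) ^ 2 * a ≤ (1 + 3 * θ) * a := mul_le_mul_of_nonneg_right e4 ha0.le
    have e6 : d * (1 + θ) ^ 2 / 2 + 2 / (3 * d) * (1 + θ) ^ 2 = (1 + θ) ^ 2 * a := by rw [ha]; ring
    nlinarith
  have hb2 : (2 * (r : ℝ) + 1) * SN - r * (r + 1) * SD ≤ (a + ε) * SN :=
    b.trans (mul_le_mul_of_nonneg_right hc hSN0)
  have hrr : 0 < (r : ℝ) * (r + 1) := by positivity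
  have hrr1 : 1 ≤ (r : ℝ) * (r + 1) := by nlinarith
  have h1 : ((2 * r + 1 - a) / (r * (r + 1)) : ℝ) * (r * (r + 1)) = 2 * r + 1 - a :=
    div_mul_cancel₀ _ hrr.ne'
  have h2 : (r : ℝ) * (r + 1) * (((2 * r + 1 - a) / (r * (r + 1)) - ε) * SN) ≤
      r * (r + 1) * SD := by
    have h3 : (r : ℝ) * (r + 1) * (((2 * r + 1 - a) / (r * (r + 1)) - ε) * SN) =
        ((2 * r + 1 - a) / (r * (r + 1)) * (r * (r + 1))) * SN -
          r * (r + 1) * (ε * SN) := by ring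
    have h4 : 0 ≤ ε * SN := by positivity
    have h5 : 1 * (ε * SN) ≤ r * (r + 1) * (ε * SN) := mul_le_mul_of_nonneg_right hrr1 h4
    rw [h3, h1]
    linarith
  exact le_of_mul_le_mul_left h2 hrr

end W388.T2H62
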