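import Pool.Agent.T2H62.MX.C
import Pool.Agent.Y773.HG.Top

/-!
# Distinct zeros of the twists of Hecke L-functions of number fields of any degree
-/

set_option autoImplicit false
set_option linter.unusedSectionVars false

open NumberField Complex Filter Topology Set MeasureTheory
open H370 (NN Ns Nd)
open H385 (primFamM Rw)

namespace Pool.Agent.T2H62.MX

open Pool.Agent.Y773.G
open Pool.Agent.Y773 (LI cc tw mul_span_ne_top)

variable {K : Type} [Field K] [NumberField K]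

/-- **Distinct zeros**, general form -/
theorem dist_of {𝔣 : Ideal (𝓞 K)} {ψ : Ideal (𝓞 K) →*₀ ℂ} (h : IsPrimChar K 𝔣 ψ)
    (hSel : W388.SelE (cc ψ)) (r : ℕ) (hr : 1 ≤ r) (ε : ℝ) (hε : 0 < ε) :
    ∃ F : (q : ℕ) → DirichletCharacter ℂ q → ℂ → ℂ,
      (∀ (q : ℕ) (χ : DirichletCharacter ℂ q), 2 ≤ q →
        Nat.Coprime q (Ideal.absNorm 𝔣 * (discr K).natAbs) → χ.IsPrimitive →
        Differentiable ℂ (F q χ) ∧ ∀ s : ℂ, 1 < s.re → F q χ s = LI (tw ψ χ) s) ∧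
      ∃ κ η X0 : ℝ, 1 ≤ κ ∧ 0 < η ∧ 1 ≤ X0 ∧
      ∀ (X Y : ℕ) (T : ℝ), X0 ≤ X → κ * X ≤ Y → (Y : ℝ) ≤ (X : ℝ) ^ (1 + η) →
        (Real.log X) ^ 2 ≤ T → T ≤ (X : ℝ) ^ η →
        ((2 * r + 1 - ((Module.finrank ℚ K : ℝ) / 2 + 2 / (3 * (Module.finrank ℚ K : ℝ)))) /
            (r * (r + 1)) - ε) * primFamM (Ideal.absNorm 𝔣 * (discr K).natAbs) X Y
            (fun q χ => (NN (F q χ) T (2 * T) : ℝ)) ≤
          primFamM (Ideal.absNorm 𝔣 * (discr K).natAbs) X Y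
            (fun q χ => (Nd (F q χ) T (2 * T) : ℝ)) := by
  classical
  set N : ℕ := Ideal.absNorm 𝔣 * (discr K).natAbs with hN
  have hN0 : N ≠ 0 := mul_ne_zero (fun h1 => h.ne_bot (Ideal.absNorm_eq_zero_iff.mp h1))
    (Int.natAbs_ne_zero.mpr (discr_ne_zero K))
  set M := W388.rad N with hM
  have hMsq : Squarefree M := W388.rad_squarefree N
  have htw : ∀ (q : ℕ) (χ : DirichletCharacter ℂ q), 2 ≤ q → χ.IsPrimitive → Nat.Coprime q M →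
      IsPrimChar K (𝔣 * Ideal.span {(q : 𝓞 K)}) (tw ψ χ) := by
    intro q χ hq hχ hqM
    have hqN : Nat.Coprime q N := (W388.coprime_rad hN0 q).mp hqM
    refine Pool.Agent.Y772.G.t_tw K 𝔣 ψ h q χ (by omega) hχ ?_ ?_
    · exact Nat.Coprime.coprime_dvd_right (dvd_mul_right _ _) hqN
    · have h1 : Nat.Coprime q (discr K).natAbs :=
        Nat.Coprime.coprime_dvd_right (dvd_mul_left _ _) hqN
      rw [Int.isCoprime_iff_gcd_eq_one]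
      simpa [Int.gcd] using h1
  obtain ⟨A, F, hA, hF, hF2⟩ := twE_of Pool.Agent.Y772.G.t_sig h M htw
    (fun q χ G s₀ hq hχ hqM hs0 hG hGL =>
      t_nv K _ _ (htw q χ hq hχ hqM) (mul_span_ne_top hq) G s₀ hs0 hG hGL)
  have hd : (1 : ℝ) ≤ (Module.finrank ℚ K : ℝ) := by
    have := Module.finrank_pos (R := ℚ) (M := K)
    exact_mod_cast this
  obtain ⟨κ, η, X0, hκ', hη, hX0, hfin⟩ := W388.T2H62.distinct_E (Module.finrank ℚ K : ℝ) A hd hA M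
    hMsq (cc ψ) F hF hSel r hr ε hε
  refine ⟨F, ?_, κ, η, X0, hκ', hη, hX0, ?_⟩
  · intro q χ hq hqN hχ
    exact hF2 q χ hq ((W388.coprime_rad hN0 q).mpr hqN) hχ
  · intro X Y T a1 a2 a3 a4 a5
    have b1 := hfin X Y T a1 a2 a3 a4 a5
    simp only [hM, W388.primFamM_rad hN0] at b1
    exact b1

/-- **Distinct zeros**, Galois fields of prime degree, induction irreducible -/
theorem dist_prime (hG : IsGalois ℚ K) (hd : (Module.finrank ℚ K).Prime)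
    {𝔣 : Ideal (𝓞 K)} {ψ : Ideal (𝓞 K) →*₀ ℂ} (h : IsPrimChar K 𝔣 ψ) {p : ℕ} (hp : p.Prime)
    (hpf : ¬ p ∣ Ideal.absNorm 𝔣) {P P' : Ideal (𝓞 K)} (hP : Ideal.absNorm P = p)
    (hP' : Ideal.absNorm P' = p) (hne : ψ P ≠ ψ P') (r : ℕ) (hr : 1 ≤ r) (ε : ℝ) (hε : 0 < ε) :
    ∃ F : (q : ℕ) → DirichletCharacter ℂ q → ℂ → ℂ,
      (∀ (q : ℕ) (χ : DirichletCharacter ℂ q), 2 ≤ q →
        Nat.Coprime q (Ideal.absNorm 𝔣 * (discr K).natAbs) → χ.IsPrimitive →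
        Differentiable ℂ (F q χ) ∧ ∀ s : ℂ, 1 < s.re → F q χ s = LI (tw ψ χ) s) ∧
      ∃ κ η X0 : ℝ, 1 ≤ κ ∧ 0 < η ∧ 1 ≤ X0 ∧
      ∀ (X Y : ℕ) (T : ℝ), X0 ≤ X → κ * X ≤ Y → (Y : ℝ) ≤ (X : ℝ) ^ (1 + η) →
        (Real.log X) ^ 2 ≤ T → T ≤ (X : ℝ) ^ η →
        ((2 * r + 1 - ((Module.finrank ℚ K : ℝ) / 2 + 2 / (3 * (Module.finrank ℚ K : ℝ)))) /
            (r * (r + 1)) - ε) * primFamM (Ideal.absNorm 𝔣 * (discr K).natAbs) X Y
            (fun q χ => (NN (F q χ) T (2 * T) : ℝ)) ≤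
          primFamM (Ideal.absNorm 𝔣 * (discr K).natAbs) X Y
            (fun q χ => (Nd (F q χ) T (2 * T) : ℝ)) := by
  have key : Pool.Agent.Y772.SL.SelData (cc ψ) :=
    Pool.Agent.Y772.G.sel_prime t_ent hG hd h hp hpf hP hP' hne
  obtain ⟨A, hA, hDK⟩ := Pool.Agent.Y772.DK.t_dirK K
  exact dist_of h (key.selE (hDK ψ (Pool.Agent.Y772.G.prim_norm_le h)).2.2.2.2.2.2.1) r hr ε hε

end Pool.Agent.T2H62.MX
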